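import Pool.Agent.helper29.JZ.Asm

set_option autoImplicit false

/-!
# Hilbert functions of double points in `ℙ¹ × ℙ¹`: both rulings together

`H` is the Hilbert function of `R / I_Y^(2)` (`hilbert (doubleIdeal Y)`), `Y` a set of `r` points of `ℙ¹ × ℙ¹`.
The first two rows `H(i,0)`, `H(i,1)`, the first two columns `H(0,j)`, `H(1,j)` and the borders (`i` large or `j` large) are
determined by a `0`-`1` matrix `M` with `r` ones and two numbers `a`, `b` (`Theta M a b`), and the data `(M, a, b)` which
occur are exactly those with `Joint M a b r` (definitions in `Pool.Agent.helper29.JZ.Defs`). In contrast to `ThirdRow`,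
where each of the two rulings is treated separately, this says which pairs of data go together: the new condition is
`Jt M a b`.

Proof: rows in `Pool.Agent.helper29.JZ.Spec` (docstrings). A curve `C : P(x) y = Q(x)` of bidegree `(e,1)` with
`a = e + |A \ C|` and a curve `C' : P'(y) x = Q'(y)` of bidegree `(1,e')` with `b = e' + |B \ C'|` determine the two rows and
columns; they have at most `e e' + 1` common points, or are equal and have `e = e' = 1`. Conversely `y = x ^ a` and
`x = y ^ (-b)` have `a b + 1` common points whose coordinates are different roots of unity.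
-/

namespace Pool.Agent.Results.MP_3221a1_ag.BothRulings

open Pool.Agent.helper97.FP Pool.Agent.helper29.JZ

/-- **Both rulings together.** -/
theorem result (r : ℕ) :
    -- every configuration of `r` points has data
    (∀ Y : Finset Point, Y.card = r → ∃ (h h' : ℕ) (M : Finset (Fin h × Fin h')) (a b : ℕ), Joint M a b r ∧
      ∀ i j, (i ≤ 1 ∨ j ≤ 1 ∨ 2 * h ≤ i + 1 + a ∨ 2 * h' ≤ j + 1 + b) →
        hilbert (doubleIdeal Y) i j = Theta M a b i j) ∧
    -- all data occur
    (∀ (h h' : ℕ) (M : Finset (Fin h × Fin h')) (a b : ℕ), Joint M a b r → ∃ Y : Finset Point, Y.card = r ∧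
      ∀ i j, (i ≤ 1 ∨ j ≤ 1 ∨ 2 * h ≤ i + 1 + a ∨ 2 * h' ≤ j + 1 + b) →
        hilbert (doubleIdeal Y) i j = Theta M a b i j) :=
  hFin r

end Pool.Agent.Results.MP_3221a1_ag.BothRulings
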